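import Mathlib

set_option autoImplicit false

namespace Pool.Agent.Dag

open Matrix Relation

section binom
open MvPolynomial
variable {τ A ι : Type} [CommRing A] [Algebra ℝ A] [Fintype ι]

lemma binom (φ : MvPolynomial τ ℝ →ₐ[ℝ] A) (B : Set (MvPolynomial τ ℝ))
    (hB : ∀ f ∈ B, ∃ a b c d, f = monomial a c + monomial b d) (h0 : ∀ f ∈ B, φ f = 0)
    (e : ι → τ →₀ ℕ) (ε : ι → ℝ) (i : ι) (hi : ε i ≠ 0) (h1 : φ (monomial (e i) 1) ≠ 0)
    (h : ∑ j, ε j • monomial (e j) (1 : ℝ) ∈ Ideal.span B) :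
    ∃ j ≠ i, ∃ c : ℝ, c ≠ 0 ∧ φ (monomial (e j) 1) = c • φ (monomial (e i) 1) := by
  classical
  let Cl : (τ →₀ ℕ) → Prop := fun u => ∃ c : ℝ, c ≠ 0 ∧ φ (monomial u 1) = c • φ (monomial (e i) 1)
  let T : MvPolynomial τ ℝ →ₗ[ℝ] A :=
    (basisMonomials τ ℝ).constr ℝ fun u => if Cl u then φ (monomial u 1) else 0
  have m1 : ∀ u (c : ℝ), (monomial u c : MvPolynomial τ ℝ) = c • monomial u 1 := fun u c => by
    rw [smul_monomial, smul_eq_mul, mul_one]
  have hT : ∀ u, T (monomial u 1) = if Cl u then φ (monomial u 1) else 0 := fun u =>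
    (basisMonomials τ ℝ).constr_basis ℝ _ u
  have a0 : ∀ a b (c d : ℝ), c • φ (monomial a 1) + d • φ (monomial b 1) = 0 → Cl a → ¬ Cl b →
      c = 0 := by
    rintro a b c d h2 ⟨x, hx, h3⟩ h4
    by_contra hc
    rw [h3, smul_smul] at h2
    by_cases hd : d = 0
    · rw [hd, zero_smul, add_zero, smul_eq_zero] at h2
      exact h2.elim (mul_ne_zero hc hx) h1
    · refine h4 ⟨-(d⁻¹ * (c * x)), by simp [hc, hx, hd], ?_⟩
      rw [neg_smul, mul_smul, eq_neg_of_add_eq_zero_left h2, smul_neg, neg_neg, inv_smul_smul₀ hd]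
  have a1 : ∀ a b c d, φ (monomial a c + monomial b d) = 0 → T (monomial a c + monomial b d) = 0 := by
    intro a b c d h2
    rw [m1 a, m1 b, map_add, map_smul, map_smul] at h2 ⊢
    rw [hT, hT]
    split_ifs with h3 h4 h4
    · exact h2
    · rw [a0 _ _ _ _ h2 h3 h4, zero_smul, smul_zero, add_zero]
    · rw [a0 _ _ _ _ ((add_comm _ _).trans h2) h4 h3, zero_smul, smul_zero, add_zero]
    · simp
  have a2 : ∀ f ∈ Ideal.span B, ∀ r, T (r * f) = 0 := by
    intro f hf
    induction hf using Submodule.span_induction with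
    | mem f hf =>
      intro r
      induction r using MvPolynomial.induction_on' with
      | monomial u x =>
        have := h0 f hf
        obtain ⟨a, b, c, d, rfl⟩ := hB f hf
        have h2 : φ (monomial u x * (monomial a c + monomial b d)) = 0 := by
          rw [map_mul, this, mul_zero]
        rw [mul_add, monomial_mul, monomial_mul] at h2 ⊢
        exact a1 _ _ _ _ h2
      | add p q hp hq => rw [add_mul, map_add, hp, hq, add_zero]
    | zero => simp
    | add f g _ _ h h' => exact fun r => by rw [mul_add, map_add, h, h', add_zero]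
    | smul s f _ h => exact fun r => by rw [smul_eq_mul, ← mul_assoc, h]
  by_contra h2
  have h3 := a2 _ h 1
  rw [one_mul, map_sum, Finset.sum_eq_single i (fun j _ hj => by
    rw [map_smul, hT, if_neg fun h4 => h2 ⟨j, hj, h4⟩, smul_zero]) (by simp), map_smul, hT,
    if_pos ⟨1, one_ne_zero, (one_smul _ _).symm⟩, smul_eq_zero] at h3
  exact h3.elim hi h1
end binom

variable {V : Type} {E : V → V → Prop}

/-- Two vertices have a common ancestor. -/
def Trek (R : V → V → Prop) (a b : V) : Prop := ∃ k, ReflTransGen R k a ∧ ReflTransGen R k b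

lemma Trek.symm {R : V → V → Prop} {a b : V} : Trek R a b → Trek R b a :=
  fun ⟨k, h, h'⟩ => ⟨k, h', h⟩

lemma trunc {C : Set V} {v d : V} (h : ReflTransGen E v d) (hd : d ∈ C) :
    ∃ c ∈ C, ReflTransGen (fun a b => E a b ∧ a ∉ C) v c := by
  induction h using ReflTransGen.head_induction_on with
  | refl => exact ⟨d, hd, .refl⟩
  | @head a b h _ ih =>
    by_cases ha : a ∈ C
    · exact ⟨a, ha, .refl⟩
    · obtain ⟨c, hc, h2⟩ := ih
      exact ⟨c, hc, .head ⟨h, ha⟩ h2⟩

lemma active (hE : ∀ a b, E a b → ¬ E b a) {C : Set V} {m : ℕ} {v : ℕ → V} (h0 : v 0 ∉ C)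
    (hm : v m ∉ C) (h1 : ∀ t < m, E (v t) (v (t + 1)) ∨ E (v (t + 1)) (v t))
    (h2 : ∀ t, t + 1 < m → v (t + 1) ∈ C → E (v t) (v (t + 1)) ∧ E (v (t + 2)) (v (t + 1)))
    (h3 : ∀ t, t + 1 < m → E (v t) (v (t + 1)) → E (v (t + 2)) (v (t + 1)) →
      ∃ d ∈ C, ReflTransGen E (v (t + 1)) d) :
    Trek (fun a b => E a b ∧ a ∉ C) (v 0) (v m) ∨
      ∃ c ∈ C, Trek (fun a b => E a b ∧ a ∉ C) (v 0) c := by
  have : ∀ t ≤ m, (∃ c ∈ C, Trek (fun a b => E a b ∧ a ∉ C) (v 0) c) ∨
      ReflTransGen (fun a b => E a b ∧ a ∉ C) (v t) (v 0) ∨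
      (Trek (fun a b => E a b ∧ a ∉ C) (v 0) (v t) ∧ ∃ s, t = s + 1 ∧ E (v s) (v t)) := by
    intro t ht
    induction t with
    | zero => exact .inr (.inl .refl)
    | succ t ih =>
      rcases h1 t ht with h | h
      · have hC : v t ∉ C := fun hC => by
          cases t with
          | zero => exact h0 hC
          | succ t => exact hE _ _ h (h2 t ht hC).2
        rcases ih (by omega) with h4 | h4 | ⟨⟨k, h4, h5⟩, -⟩
        · exact .inl h4
        · exact .inr (.inr ⟨⟨_, h4, .single ⟨h, hC⟩⟩, t, rfl, h⟩)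
        · exact .inr (.inr ⟨⟨k, h4, h5.tail ⟨h, hC⟩⟩, t, rfl, h⟩)
      · rcases ih (by omega) with h4 | h4 | ⟨⟨k, h4, h5⟩, s, rfl, h6⟩
        · exact .inl h4
        · refine .inr (.inl (.head ⟨h, fun hC => ?_⟩ h4))
          rcases ht.eq_or_lt with rfl | ht
          exacts [hm hC, hE _ _ h (h2 t ht hC).1]
        · obtain ⟨d, hd, h7⟩ := h3 s ht h6 h
          obtain ⟨c, hc, h8⟩ := trunc h7 hd
          exact .inl ⟨c, hc, k, h4, h5.trans h8⟩
  rcases this m le_rfl with h | h | h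
  exacts [.inr h, .inl ⟨_, h, .refl⟩, .inl h.1]

variable [Fintype V] [DecidableEq V] (hE : WellFounded E) {L : Matrix V V ℝ}
  (hL : ∀ a b, ¬ E a b → L a b = 0)
include hE hL

lemma unit : IsUnit (1 - L).det := by
  rw [isUnit_iff_ne_zero, Ne, ← exists_vecMul_eq_zero_iff]
  rintro ⟨x, hx, h⟩
  refine hx (funext fun a => ?_)
  induction a using hE.induction with
  | _ a ih =>
    have := congrFun h a
    rw [vecMul_sub, vecMul_one, Pi.sub_apply, vecMul, dotProduct,
      Finset.sum_eq_zero fun b _ => ?_] at this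
    · simpa using this
    · by_cases e : E b a
      · rw [ih b e, Pi.zero_apply, zero_mul]
      · rw [hL b a e, mul_zero]

lemma recur (k a : V) : (1 - L)⁻¹ k a = (if k = a then 1 else 0) + ∑ b, (1 - L)⁻¹ k b * L b a := by
  have := congrFun (congrFun (nonsing_inv_mul _ (unit hE hL)) k) a
  rw [Matrix.mul_sub, Matrix.mul_one, Matrix.sub_apply, mul_apply, one_apply] at this
  linarith

lemma reach (k a : V) (h : (1 - L)⁻¹ k a ≠ 0) : ReflTransGen (fun a b => L a b ≠ 0) k a := by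
  induction a using hE.induction with
  | _ a ih =>
    by_cases e : k = a
    · exact e ▸ .refl
    rw [recur hE hL, if_neg e, zero_add] at h
    obtain ⟨b, -, hb⟩ := Finset.exists_ne_zero_of_sum_ne_zero h
    exact (ih b (by_contra fun h => right_ne_zero_of_mul hb (hL b a h))
      (left_ne_zero_of_mul hb)).tail (right_ne_zero_of_mul hb)

lemma nonneg (h : ∀ a b, 0 ≤ L a b) (k a : V) : 0 ≤ (1 - L)⁻¹ k a := by
  induction a using hE.induction with
  | _ a ih =>
    rw [recur hE hL]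
    refine add_nonneg (by positivity) (Finset.sum_nonneg fun b _ => ?_)
    by_cases e : E b a
    · exact mul_nonneg (ih b e) (h b a)
    · rw [hL b a e, mul_zero]

lemma pos (h : ∀ a b, 0 ≤ L a b) {k a : V} (h1 : ReflTransGen (fun a b => L a b ≠ 0) k a) :
    0 < (1 - L)⁻¹ k a := by
  have n := fun a b => mul_nonneg (nonneg hE hL h k b) (h b a)
  induction h1 with
  | refl =>
    rw [recur hE hL, if_pos rfl]
    exact add_pos_of_pos_of_nonneg one_pos (Finset.sum_nonneg fun b _ => n _ b)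
  | @tail b a _ h2 ih =>
    rw [recur hE hL]
    exact add_pos_of_nonneg_of_pos (by positivity) (Finset.sum_pos' (fun b _ => n _ b)
      ⟨b, Finset.mem_univ _, mul_pos ih ((h b a).lt_of_ne' h2)⟩)

lemma same {L' : Matrix V V ℝ} (hL' : ∀ a b, ¬ E a b → L' a b = 0) {j : V}
    (h : ∀ a b, b ≠ j → L a b = L' a b) (k a : V) (ha : ¬ ReflTransGen E j a) :
    (1 - L)⁻¹ k a = (1 - L')⁻¹ k a := by
  induction a using hE.induction with
  | _ a ih =>
    rw [recur hE hL, recur hE hL']
    congr 1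
    refine Finset.sum_congr rfl fun b _ => ?_
    by_cases e : E b a
    · rw [ih b e fun h => ha (h.tail e), h b a fun h => ha (h ▸ .refl)]
    · rw [hL b a e, hL' b a e, mul_zero, mul_zero]

omit hE hL in
/-- The covariance matrix. -/
noncomputable def cov (L : Matrix V V ℝ) (ω : V → ℝ) : Matrix V V ℝ :=
  ((1 - L)⁻¹)ᵀ * diagonal ω * (1 - L)⁻¹

omit hE hL in
lemma cov_apply (ω : V → ℝ) (a b : V) :
    cov L ω a b = ∑ k, (1 - L)⁻¹ k a * ω k * (1 - L)⁻¹ k b := by
  simp [cov, mul_apply, diagonal_apply]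

omit hE hL in
lemma cov_symm (ω : V → ℝ) (a b : V) : cov L ω a b = cov L ω b a := by
  simp only [cov_apply]
  exact Finset.sum_congr rfl fun k _ => by ring

lemma cov_last (ω : V → ℝ) {a j : V} (ha : ¬ ReflTransGen E j a) :
    cov L ω a j = ∑ b, cov L ω a b * L b j := by
  have : (1 - L)⁻¹ j a = 0 := by_contra fun h => ha (ReflTransGen.mono
    (fun a b h => by_contra fun h' => h (hL a b h')) _ _ (reach hE hL j a h))
  simp only [cov_apply, Finset.sum_mul]
  rw [Finset.sum_comm]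
  refine Finset.sum_congr rfl fun k _ => ?_
  rw [recur hE hL k j, mul_add, Finset.mul_sum]
  simp only [mul_assoc]
  split_ifs with e
  · rw [e, this, zero_mul, zero_add]
  · rw [mul_zero, mul_zero, zero_add]

lemma cov_zero {a b : V} (h : ¬ Trek (fun a b => L a b ≠ 0) a b) : cov L 1 a b = 0 := by
  rw [cov_apply]
  exact Finset.sum_eq_zero fun k _ => by_contra fun h1 => h ⟨k,
    reach hE hL _ _ (left_ne_zero_of_mul (left_ne_zero_of_mul h1)),
    reach hE hL _ _ (right_ne_zero_of_mul h1)⟩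

lemma cov_pos (h : ∀ a b, 0 ≤ L a b) {a b : V} (h1 : Trek (fun a b => L a b ≠ 0) a b) :
    0 < cov L 1 a b := by
  obtain ⟨k, h1, h2⟩ := h1
  simp only [cov_apply, Pi.one_apply, mul_one]
  exact Finset.sum_pos' (fun k _ => mul_nonneg (nonneg hE hL h _ _) (nonneg hE hL h _ _))
    ⟨k, Finset.mem_univ _, mul_pos (pos hE hL h h1) (pos hE hL h h2)⟩

end Pool.Agent.Dag
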