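import Pool.Agent.H.MP_3a69bf_ag.A

set_option autoImplicit false

namespace Pool.Agent.Dag

open Matrix Relation

variable {V : Type} {E : V → V → Prop} [Fintype V] [DecidableEq V]

open Classical in
/-- Adjacency matrix of a relation. -/
noncomputable def W (R : V → V → Prop) : Matrix V V ℝ := fun a b => if R a b then 1 else 0

omit [Fintype V] [DecidableEq V] in
lemma W_ne (R : V → V → Prop) : (fun a b => W R a b ≠ 0) = R := by
  funext a b
  simp [W]

omit [Fintype V] [DecidableEq V] in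
lemma W_nonneg (R : V → V → Prop) (a b : V) : 0 ≤ W R a b := by
  unfold W
  positivity

omit [Fintype V] [DecidableEq V] in
lemma W_supp {R : V → V → Prop} (h : ∀ a b, R a b → E a b) (a b : V) (h' : ¬ E a b) :
    W R a b = 0 := if_neg fun e => h' (h a b e)

lemma faith (hE : WellFounded E) {i j c : V} (hi : i ≠ c) (hj : j ≠ c)
    (h : ∀ L : Matrix V V ℝ, (∀ a b, ¬ E a b → L a b = 0) → (∀ a b, 0 ≤ L a b) →
      cov L 1 i j * cov L 1 c c = cov L 1 i c * cov L 1 c j)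
    (h1 : Trek (fun a b => E a b ∧ a ≠ c) i j ∨
      Trek (fun a b => E a b ∧ a ≠ c) i c ∧ Trek (fun a b => E a b ∧ a ≠ c) j c) : False := by
  by_cases e : Trek (fun a b => E a b ∧ a ≠ c) i j
  · have s := W_supp (E := E) (R := fun a b => E a b ∧ a ≠ c ∧ b ≠ c) fun _ _ h => h.1
    have r : ∀ k a, a ≠ c → ReflTransGen (fun a b => E a b ∧ a ≠ c) k a →
        ReflTransGen (fun a b => E a b ∧ a ≠ c ∧ b ≠ c) k a := fun k a ha h => by
      induction h with
      | refl => exact .refl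
      | tail _ h2 ih => exact (ih h2.2).tail ⟨h2.1, h2.2, ha⟩
    obtain ⟨k, e1, e2⟩ := e
    have h2 := h _ s (W_nonneg _)
    rw [cov_zero hE s (a := i) (b := c), zero_mul] at h2
    · refine (mul_pos (cov_pos hE s (W_nonneg _) ?_) (cov_pos hE s (W_nonneg _)
        ⟨c, .refl, .refl⟩)).ne' h2
      rw [W_ne]
      exact ⟨k, r _ _ hi e1, r _ _ hj e2⟩
    · rw [W_ne]
      rintro ⟨k, e3, e4⟩
      rcases e4.cases_tail with rfl | ⟨_, -, e5⟩
      · rcases e3.cases_head with rfl | ⟨_, e5, -⟩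
        exacts [hi rfl, e5.2.1 rfl]
      · exact e5.2.2 rfl
  · have s := W_supp (E := E) (R := fun a b => E a b ∧ a ≠ c) fun _ _ h => h.1
    obtain ⟨e1, e2⟩ := h1.resolve_left e
    have h2 := h _ s (W_nonneg _)
    rw [cov_zero hE s (a := i) (b := j) (by rwa [W_ne]), zero_mul] at h2
    exact (mul_pos (cov_pos hE s (W_nonneg _) (by rwa [W_ne])) (cov_pos hE s (W_nonneg _)
      (by rw [W_ne]; exact e2.symm))).ne h2

lemma limit (hE : WellFounded E) {ι : Type} (s : Finset ι) (p q : ι → V) {i j : V} {c : ℝ}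
    (h0 : Trek E i j) (hc : c ≠ 0) {b : ι} (hb : b ∈ s) (hb' : p b ≠ q b)
    (h : ∀ L : Matrix V V ℝ, (∀ a b, ¬ E a b → L a b = 0) → (∀ a b, 0 ≤ L a b) →
      cov L 1 i j * ∏ a ∈ s, cov L 1 (p a) (q a) =
        c * (cov L 1 i j * ∏ a ∈ s, cov L 1 (q a) (q a))) : False := by
  have c1 : ContinuousAt (fun t : ℝ => (1 - t • W E)⁻¹) 0 :=
    ContinuousAt.comp (f := fun t : ℝ => 1 - t • W E) (continuousAt_matrix_inv _ (by
      simp)) (by fun_prop)
  have c2 : ∀ a b, ContinuousAt (fun t : ℝ => (1 - t • W E)⁻¹ a b) 0 := fun a b =>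
    (continuous_id.matrix_elem a b).continuousAt.comp c1
  have c3 : ∀ a b, ContinuousAt (fun t : ℝ => cov (t • W E) 1 a b) 0 := fun a b => by
    simp only [cov_apply]
    exact tendsto_finsetSum _ fun k _ => ((c2 k a).mul continuousAt_const).mul (c2 k b)
  have c4 : ContinuousAt (fun t : ℝ => ∏ a ∈ s, cov (t • W E) 1 (p a) (q a) -
      c * ∏ a ∈ s, cov (t • W E) 1 (q a) (q a)) 0 :=
    .sub (tendsto_finsetProd _ fun a _ => c3 _ _)
      (continuousAt_const.mul (tendsto_finsetProd _ fun a _ => c3 _ _))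
  have c5 := tendsto_nhds_unique (c4.tendsto.mono_left (nhdsWithin_le_nhds (s := Set.Ioi 0)))
    (tendsto_const_nhds (x := 0).congr' (eventually_nhdsWithin_of_forall fun t (ht : 0 < t) => by
      have s1 : ∀ a b, ¬ E a b → (t • W E) a b = 0 := fun a b h => by
        simp [W_supp (fun _ _ h => h) a b h]
      have s2 : ∀ a b, 0 ≤ (t • W E) a b := fun a b => mul_nonneg ht.le (W_nonneg _ a b)
      have s3 := cov_pos hE s1 s2 (a := i) (b := j) (by simpa [ht.ne', W] using h0)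
      refine mul_left_cancel₀ s3.ne' ?_
      linear_combination -h _ s1 s2))
  have c6 : cov (0 : Matrix V V ℝ) 1 = 1 := by simp [cov]
  rw [zero_smul, c6, Finset.prod_eq_zero (f := fun a => (1 : Matrix V V ℝ) (p a) (q a)) hb
    (one_apply_ne hb')] at c5
  simp [hc] at c5

lemma swap (hE : WellFounded E) {ι : Type} (s : Finset ι) (p q : ι → V) {i j d : V} {c : ℝ}
    (hc : c ≠ 0) (hd : E d j) (hi : ¬ ReflTransGen E j i) (hd' : ¬ ReflTransGen E j d)
    (hp : ∀ a ∈ s, ¬ ReflTransGen E j (p a)) (hq : ∀ a ∈ s, ¬ ReflTransGen E j (q a))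
    (h : ∀ L : Matrix V V ℝ, (∀ a b, ¬ E a b → L a b = 0) → (∀ a b, 0 ≤ L a b) →
      cov L 1 d j * ∏ a ∈ s, cov L 1 (p a) (q a) =
        c * (cov L 1 i j * ∏ a ∈ s, cov L 1 (q a) (q a)))
    (L : Matrix V V ℝ) (s1 : ∀ a b, ¬ E a b → L a b = 0) (s2 : ∀ a b, 0 ≤ L a b) :
    cov L 1 i j * cov L 1 d d = cov L 1 i d * cov L 1 d j := by
  let L' : Matrix V V ℝ := fun a b => if b = j then if a = d then 1 else 0 else L a b
  have s3 : ∀ a b, ¬ E a b → L' a b = 0 := fun a b h => by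
    simp only [L']
    split_ifs with h1 h2
    exacts [absurd (h1 ▸ h2 ▸ hd) h, rfl, s1 a b h]
  have s4 : ∀ a b, 0 ≤ L' a b := fun a b => by
    simp only [L']
    split_ifs
    exacts [zero_le_one, le_rfl, s2 a b]
  have e : ∀ a b, ¬ ReflTransGen E j a → ¬ ReflTransGen E j b → cov L' 1 a b = cov L 1 a b :=
    fun a b ha hb => by
      simp only [cov_apply, same hE s1 s3 (fun a b h => (if_neg h).symm) _ _ ha,
        same hE s1 s3 (fun a b h => (if_neg h).symm) _ _ hb]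
  have e2 : ∀ a, ¬ ReflTransGen E j a → cov L' 1 a j = cov L 1 a d := fun a ha => by
    rw [cov_last hE s3 1 ha, ← e a d ha hd']
    simp [L']
  have h1 := h L s1 s2
  have h2 := h L' s3 s4
  rw [e2 d hd', e2 i hi, Finset.prod_congr rfl fun a ha => e _ _ (hp a ha) (hq a ha),
    Finset.prod_congr rfl fun a ha => e _ _ (hq a ha) (hq a ha)] at h2
  have h3 : 0 < ∏ a ∈ s, cov L 1 (q a) (q a) :=
    Finset.prod_pos fun a _ => cov_pos hE s1 s2 ⟨_, .refl, .refl⟩
  refine mul_left_cancel₀ (mul_ne_zero hc h3.ne') ?_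
  linear_combination cov L 1 d j * h2 - cov L 1 d d * h1

lemma det_zero [DecidableRel E] (wf : WellFounded E) {i j : V} (hi : ¬ E i j)
    (hι : ∀ a : {a // a = i ∨ E a j}, ¬ ReflTransGen E j a) {L : Matrix V V ℝ} (ω : V → ℝ)
    (hL : ∀ a b, ¬ E a b → L a b = 0) : (Matrix.of fun a b : {a // a = i ∨ E a j} =>
      cov L ω a (if b = ⟨i, .inl rfl⟩ then j else b)).det = 0 := by
  refine exists_mulVec_eq_zero_iff.1 ⟨fun b => if b = ⟨i, .inl rfl⟩ then 1 else -L b j,
    fun h => by simpa using congrFun h ⟨i, .inl rfl⟩, funext fun a => ?_⟩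
  have e1 := cov_last wf hL ω (hι a)
  rw [← Finset.sum_subset (Finset.subset_univ (Finset.univ.filter fun a => a = i ∨ E a j))
    (fun b _ hb => by rw [hL b j fun h => hb (by simp [h]), mul_zero]),
    Finset.sum_subtype (p := fun a => a = i ∨ E a j) _ (by simp),
    ← Finset.add_sum_erase _ _ (Finset.mem_univ ⟨i, .inl rfl⟩), hL _ _ hi, mul_zero,
    zero_add] at e1
  simp only [mulVec, dotProduct, of_apply, Pi.zero_apply]
  rw [← Finset.add_sum_erase _ _ (Finset.mem_univ ⟨i, .inl rfl⟩), if_pos rfl, if_pos rfl, e1,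
    mul_one, ← Finset.sum_add_distrib]
  exact Finset.sum_eq_zero fun b hb => by simp [Finset.ne_of_mem_erase hb]

open MvPolynomial in
lemma binom2 {τ Θ ι : Type} [Fintype ι] [DecidableEq ι] (σ : Θ → τ → ℝ) (x : ι → ι → τ)
    (B : Set (MvPolynomial τ ℝ)) (hB : ∀ f ∈ B, ∃ a b c d, f = monomial a c + monomial b d)
    (h0 : ∀ f ∈ B, ∀ L, eval (σ L) f = 0) (L : Θ) (h1 : ∏ b, σ L (x b b) ≠ 0)
    (h : (Matrix.of fun a b => X (x a b)).det ∈ Ideal.span B) :
    ∃ π : Equiv.Perm ι, π ≠ 1 ∧ ∃ c : ℝ, c ≠ 0 ∧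
      ∀ L, ∏ b, σ L (x (π b) b) = c * ∏ b, σ L (x b b) := by
  let φ : MvPolynomial τ ℝ →ₐ[ℝ] (Θ → ℝ) := aeval fun p L => σ L p
  let e : Equiv.Perm ι → τ →₀ ℕ := fun π => ∑ b, Finsupp.single (x (π b) b) 1
  have he : ∀ π, monomial (e π) (1 : ℝ) = ∏ b, X (x (π b) b) := fun π => monomial_sum_one _ _
  have hφ : ∀ π L, φ (monomial (e π) 1) L = ∏ b, σ L (x (π b) b) := fun π L => by
    simp only [he, map_prod, φ, aeval_X, Finset.prod_apply]
  obtain ⟨π, hπ, c, hc, h2⟩ := binom φ B hB (fun f hf => funext fun L => by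
    exact (DFunLike.congr_fun (comp_aeval (fun p L => σ L p) (Pi.evalAlgHom ℝ (fun _ => ℝ) L))
      f).trans ((congrFun (aeval_eq_eval (f := σ L)) f).trans (h0 f hf L))) e
    (fun π => ((Equiv.Perm.sign π : ℤ) : ℝ)) 1 (by simp)
    (fun h2 => h1 ((hφ 1 L).symm.trans (congrFun h2 L))) (by
      rw [det_apply] at h
      simpa only [he, of_apply, Units.smul_def, Int.cast_smul_eq_zsmul] using h)
  exact ⟨π, hπ, c, hc, fun L => by simpa only [Pi.smul_apply, hφ, smul_eq_mul, Equiv.Perm.one_apply] using congrFun h2 L⟩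

open MvPolynomial in
theorem main [LinearOrder V] (hE : ∀ v, ¬ TransGen E v v) {i j : V} (hi : ¬ E i j)
    (hj : ¬ ReflTransGen E j i) (h0 : Trek E i j)
    (h1 : ∀ c, i ≠ c → j ≠ c → Trek (fun a b => E a b ∧ a ≠ c) i j ∨
      Trek (fun a b => E a b ∧ a ≠ c) i c ∧ Trek (fun a b => E a b ∧ a ≠ c) j c)
    (B : Set (MvPolynomial {p : V × V // p.1 ≤ p.2} ℝ))
    (hB : ∀ f ∈ B, ∃ a b c d, f = monomial a c + monomial b d)
    (h : ∀ f, f ∈ Ideal.span B ↔ ∀ (L : Matrix V V ℝ) (ω : V → ℝ), (∀ a b, ¬ E a b → L a b = 0) →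
      (∀ a, 0 < ω a) → eval (fun p => cov L ω p.1.1 p.1.2) f = 0) : False := by
  have wf : WellFounded E := by
    have : Std.Irrefl (TransGen E) := ⟨hE⟩
    exact Subrelation.wf TransGen.single (Finite.wellFounded_of_trans_of_irrefl _)
  have := Classical.decRel E
  let x : V → V → {p : V × V // p.1 ≤ p.2} := fun a b => ⟨(min a b, max a b), min_le_max⟩
  have hx : ∀ L ω a b, cov L ω (x a b).1.1 (x a b).1.2 = cov L ω a b := fun L ω a b => by
    rcases le_total a b with h | h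
    · simp [x, h]
    · simp [x, h, cov_symm ω a b]
  let i0 : {a // a = i ∨ E a j} := ⟨i, .inl rfl⟩
  have hι : ∀ a : {a // a = i ∨ E a j}, ¬ ReflTransGen E j a := fun a h => by
    rcases a.2 with e | e
    exacts [hj (e ▸ h), hE j (TransGen.tail' h e)]
  have hφ : ∀ (p : {a // a = i ∨ E a j} → V) (L : Matrix V V ℝ),
      ∏ b, cov L 1 (p b) (if b = i0 then j else b) =
        cov L 1 (p i0) j * ∏ b ∈ Finset.univ.erase i0, cov L 1 (p b) b := fun p L => by
    rw [← Finset.mul_prod_erase _ _ (Finset.mem_univ i0), if_pos rfl]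
    exact congrArg _ (Finset.prod_congr rfl fun b hb => by rw [if_neg (Finset.ne_of_mem_erase hb)])
  have s := W_supp (E := E) fun _ _ h => h
  have a1 : (Matrix.of fun a b : {a // a = i ∨ E a j} => (X (x a (if b = i0 then j else b)) :
      MvPolynomial _ ℝ)).det ∈ Ideal.span B := (h _).2 fun L ω hL _ => by
    rw [RingHom.map_det, ← det_zero wf hi hι ω hL]
    exact congrArg Matrix.det (Matrix.ext fun a b => (eval_X _).trans (hx _ _ _ _))
  have a2 : ∏ b : {a // a = i ∨ E a j}, cov (W E) 1 (x b (if b = i0 then j else b)).1.1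
      (x b (if b = i0 then j else b)).1.2 ≠ 0 := by
    simp only [hx]
    rw [hφ]
    exact (mul_pos (cov_pos wf s (W_nonneg _) (by rwa [W_ne])) (Finset.prod_pos fun a _ =>
      cov_pos wf s (W_nonneg _) ⟨_, .refl, .refl⟩)).ne'
  have a3 := binom2 (τ := {p : V × V // p.1 ≤ p.2})
    (Θ := {L : Matrix V V ℝ // (∀ a b, ¬ E a b → L a b = 0) ∧ ∀ a b, 0 ≤ L a b})
    (fun L p => cov L.1 1 p.1.1 p.1.2)
    (fun a b : {a // a = i ∨ E a j} => x a (if b = i0 then j else b)) B hB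
    (fun f hf L => (h f).1 (Ideal.subset_span hf) L.1 1 L.2.1 fun _ => one_pos)
    ⟨W E, s, W_nonneg _⟩
  beta_reduce at a3
  obtain ⟨π, hπ, c, hc, h2⟩ := a3 a2 a1
  have h3 : ∀ L : Matrix V V ℝ, (∀ a b, ¬ E a b → L a b = 0) → (∀ a b, 0 ≤ L a b) →
      cov L 1 (π i0) j * ∏ b ∈ Finset.univ.erase i0, cov L 1 (π b) b =
        c * (cov L 1 i j * ∏ b ∈ Finset.univ.erase i0, cov L 1 b b) := fun L s1 s2 => by
    have := h2 ⟨L, s1, s2⟩
    simp only [hx] at this
    rwa [hφ, hφ] at this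
  by_cases h4 : π i0 = i0
  · obtain ⟨b, hb⟩ := not_forall.1 fun h => hπ (Equiv.ext h)
    rw [h4] at h3
    exact limit wf _ _ _ h0 hc (b := b) (Finset.mem_erase.2 ⟨fun e => hb (e ▸ h4),
      Finset.mem_univ _⟩) (fun e => hb (Subtype.ext e)) h3
  · have h5 : E (π i0) j := (π i0).2.resolve_left fun e => h4 (Subtype.ext e)
    have h6 : i ≠ π i0 := fun e => h4 (Subtype.ext e.symm)
    have h7 : j ≠ π i0 := fun e => hι (π i0) (e ▸ .refl)
    exact faith wf h6 h7 (swap wf _ _ _ hc h5 hj (hι _) (fun a _ => hι _) (fun a _ => hι _) h3)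
      (h1 _ h6 h7)

end Pool.Agent.Dag
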